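import Pool.Agent.Helper89.ME.GamDefs
import Pool.Agent.Helper83.ME.Force

/-!
# ME-M1c: the condition (P_F) is comeagre
-/

set_option autoImplicit false

namespace ME

open Encodable Set Filter Topology

/-- the points, as a function of the base points and the satellites -/
def pts2 (M : ℕ) (ω : (ℕ → Bool) × ((ℕ → Bool) × (Bool × ℕ → ℕ → Bool))) : Idx → ℕ → Bool :=
  pt M (fun j => cond j ω.1 ω.2.1) ω.2.2

theorem isOpen_mem_cd {Ω α : Type} [TopologicalSpace Ω] [Primcodable α] {A : Ω → Set α}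
    (hA : ∀ x, IsOpen {g | x ∈ A g}) (x : ℕ) : IsOpen {g | x ∈ cd (A g)} := by
  have e : {g | x ∈ cd (A g)} = ⋃ q : {q : α // encode q = x}, {g | q.1 ∈ A g} := by
    ext g
    rw [mem_iUnion]
    constructor
    · rintro ⟨q, hq, hx⟩
      exact ⟨⟨q, hx⟩, hq⟩
    · rintro ⟨⟨q, hx⟩, hq⟩
      exact ⟨q, hq, hx⟩
  rw [e]
  exact isOpen_iUnion (fun q => hA q.1)

theorem continuous_pts2 (M : ℕ) (l : Idx) : Continuous (fun ω => pts2 M ω l) := by
  have hc : ∀ j : Bool, Continuous (fun ω : (ℕ → Bool) × ((ℕ → Bool) ×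
      (Bool × ℕ → ℕ → Bool)) => cond j ω.1 ω.2.1) := by
    intro j
    cases j with
    | true => exact continuous_fst
    | false => exact continuous_fst.comp continuous_snd
  have hcn : ∀ (j : Bool) (n : ℕ), Continuous (fun ω : (ℕ → Bool) × ((ℕ → Bool) ×
      (Bool × ℕ → ℕ → Bool)) => (cond j ω.1 ω.2.1) n) :=
    fun j n => (continuous_apply n).comp (hc j)
  obtain ⟨j, o⟩ := l
  cases o with
  | none => exact hc j
  | some m =>
    refine continuous_pi fun n => ?_
    change Continuous fun ω : (ℕ → Bool) × ((ℕ → Bool) × (Bool × ℕ → ℕ → Bool)) =>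
      sat (cond j ω.1 ω.2.1) (M + m) (ω.2.2 (j, m)) n
    unfold sat
    by_cases h1 : n < M + m
    · simp only [h1, if_true]
      exact hcn j n
    · by_cases h2 : n = M + m
      · subst h2
        simp only [lt_irrefl, if_false, if_true]
        exact (continuous_of_discreteTopology (f := fun x : Bool => !x)).comp (hcn j (M + m))
      · simp only [h1, h2, if_false]
        exact (continuous_apply n).comp ((continuous_apply (j, m)).comp
          (continuous_snd.comp continuous_snd))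

/-- ME-M1c: (P_F) is a comeagre condition -/
theorem dense_PA (b : Set ℕ) (M : ℕ) (F : Set Idx) :
    ∃ V : ℕ → Set Gam1, (∀ k, IsOpen (V k)) ∧ (∀ k, Dense (V k)) ∧
      ∀ g, (∀ k, g ∈ V k) → ∀ u, (∀ l ∈ F, pts M g l ∉ cyl u) →
        PA (jn b (cd (GF g.1 (pts M g) F))) g.1 u := by
  classical
  obtain ⟨Φ, hΦ1, hΦ2⟩ := exists_enum_IsOp (α := ℕ) (β := ℕ × Bool)
  obtain ⟨f, hf⟩ := exists_surjective_nat (List Bool × ℕ)
  set S : Gam1 → Set ℕ := fun g => jn b (cd (GF g.1 (pts M g) F)) with hS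
  have hSo : ∀ x, IsOpen {g | x ∈ S g} := by
    intro x
    refine isOpen_mem_cd (isOpen_mem_sj (fun x => isOpen_const_mem b x)
      (isOpen_mem_cd fun p => ?_)) x
    have hr : IsOpen {g : Gam1 | rho g.1 (pts2 M g.2 p.1.1) p.1.2 = p.2} :=
      isOpen_rho continuous_fst ((continuous_pts2 M p.1.1).comp continuous_snd) p.1.2 p.2
    by_cases hp : p.1.1 ∈ F
    · have e : {g : Gam1 | p ∈ GF g.1 (pts M g) F} =
          {g : Gam1 | rho g.1 (pts2 M g.2 p.1.1) p.1.2 = p.2} := by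
        ext g
        exact ⟨fun h => h.2, fun h => ⟨hp, h⟩⟩
      rw [e]
      exact hr
    · have e : {g : Gam1 | p ∈ GF g.1 (pts M g) F} = ∅ := by
        ext g
        exact ⟨fun h => absurd h.1 hp, fun h => h.elim⟩
      rw [e]
      exact isOpen_empty
  have hBad : ∀ u : List Bool, IsOpen {ω | ∃ l ∈ F, pts2 M ω l ∈ cyl u} := by
    intro u
    have e : {ω | ∃ l ∈ F, pts2 M ω l ∈ cyl u} = ⋃ l ∈ F, (fun ω => pts2 M ω l) ⁻¹' cyl u := by
      ext ω
      simp
    rw [e]
    exact isOpen_biUnion fun l _ => (isOpen_cyl u).preimage (continuous_pts2 M l)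
  have hloc : ∀ u : List Bool, ∀ ω, ω ∉ {ω | ∃ l ∈ F, pts2 M ω l ∈ cyl u} →
      ∀ t t' : List Bool → Bool, (∀ w, ¬ (u <+: w) → t w = t' w) → S (t, ω) = S (t', ω) := by
    intro u ω hω t t' htt
    have e : GF t (pts M (t, ω)) F = GF t' (pts M (t', ω)) F := by
      ext p
      have e1 : p.1.1 ∈ F → rho t (pts2 M ω p.1.1) p.1.2 = rho t' (pts2 M ω p.1.1) p.1.2 := by
        intro hp
        refine htt _ fun hu => hω ⟨p.1.1, hp, ?_⟩
        rw [mem_cyl_iff]
        have hlen := hu.length_le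
        rw [length_pre] at hlen
        exact List.prefix_of_prefix_length_le hu (pre_prefix _ hlen) (by rw [length_pre])
      constructor
      · rintro ⟨h1, h2⟩
        exact ⟨h1, (e1 h1).symm.trans h2⟩
      · rintro ⟨h1, h2⟩
        exact ⟨h1, (e1 h1).trans h2⟩
    change jn b (cd (GF t (pts M (t, ω)) F)) = jn b (cd (GF t' (pts M (t', ω)) F))
    rw [e]
  choose V hV1 hV2 hV3 using fun (u : List Bool) (i : ℕ) =>
    label_forcing S hSo _ (hBad u) u (hloc u) (Φ i) (hΦ1 i)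
  refine ⟨fun k => V (f k).1 (f k).2, fun k => hV1 _ _, fun k => hV2 _ _, ?_⟩
  intro g hg u hu Θ hΘ hall
  obtain ⟨i, rfl⟩ := hΦ2 Θ hΘ
  obtain ⟨k, hk⟩ := hf (u, i)
  have hgk := hg k
  simp only [hk] at hgk
  obtain ⟨n, v, h1, h2, h3⟩ := hV3 u i g hgk (by
    rintro ⟨l, hl, hl'⟩
    exact hu l hl hl') hall
  exact ⟨n, v, h2, h1, h3⟩

end ME
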